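import Pool.Agent.H8.JS.Targets

/-! js8_modules, row B3: the machine with counters. -/

set_option autoImplicit false

namespace Pool.Agent.H22.JS

open Pool.Agent.H8.PL Pool.Agent.H8.JS

theorem pf_b3 (hTF : J_TF) (hB1 : J_B1) (hB2 : J_B2) : J_B3 := by
  intro r T _ U Hh Vv x
  have h0 : cinit (m5 (r := r) U Hh Vv) = b5 U Hh Vv (i5 r T) := by
    unfold cinit b5 i5
    congr 1
    funext j
    change (0 : ℕ) = (![0, 0, 0, 0, 0] : Fin 5 → ℕ) j
    fin_cases j <;> rfl
  have h := hTF (K5 r T) (CC (m5 (r := r) U Hh Vv)) (S5 U Hh Vv x)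
    (CStep (m5 (r := r) U Hh Vv) x) A5 (fun c => c.q = (m5 (r := r) U Hh Vv).acc) (b5 U Hh Vv)
    (by
      intro c d
      by_cases hlo : lo c.q
      · exact hB1 r T U Hh Vv x c d hlo
      · exact hB2 r T U Hh Vv x c d hlo) (fun c => Iff.rfl) (i5 r T)
  rw [h0]
  exact h

end Pool.Agent.H22.JS
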