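import Pool.Agent.H8.JS.Targets

/-! js8_modules, row G2: tilings row by row. -/

set_option autoImplicit false

namespace Pool.Agent.H22.JS

open Pool.Agent.H8.PL Pool.Agent.H8.JS

theorem pf_g2 (hG1 : J_G1) : J_G2 := by
  intro T U Hh Vv L pr
  rw [hG1 T U Hh Vv L L true pr]
  constructor
  · rintro ⟨t, h⟩
    refine ⟨t, ?_, ?_, ?_⟩
    · intro x hx y hy
      have h1 := (h y hy).1 x hx
      rw [Bool.true_and] at h1
      exact h1
    · intro x y hx hy
      exact (h y hy).2.1 x hx
    · intro x y hx hy
      have h1 := (h (y + 1) hy).2.2 (by simp) x hx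
      simpa using h1
  · rintro ⟨t, h1, h2, h3⟩
    refine ⟨t, fun k hk => ⟨?_, ?_, ?_⟩⟩
    · intro x hx
      rw [Bool.true_and]
      exact h1 x hx k hk
    · intro x hx
      exact h2 x k hx hk
    · intro hfr x hx
      cases k with
      | zero => simp at hfr
      | succ k =>
        have h4 := h3 x k hx hk
        simpa using h4

end Pool.Agent.H22.JS
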