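import Pool.Agent.H8.JS.Targets

/-! js8_modules, row JQ: the question. -/

set_option autoImplicit false

namespace Pool.Agent.H22.JS

open Pool.Agent.H69.Sp Pool.Agent.H8.JS

theorem pf_jq (hNU : J_NU) (hJS : J_JS) (hJC : J_JC) : J_JQ := by
  have h0 : ∀ S, IsSpectrum S → (0 : ℕ) ∉ S := by
    rintro S ⟨L, _, _, φ, rfl⟩ h
    exact lt_irrefl 0 h.1
  have hlang : ∀ L : Set (List Bool), lang (num '' L) = L := by
    intro L
    ext x
    constructor
    · rintro ⟨y, hy, hxy⟩
      rw [← hNU.2.2.2.1 y x hxy]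
      exact hy
    · intro hx
      exact ⟨x, hx, rfl⟩
  constructor
  · intro h S hS
    have h1 : lang S ∈ NE := (hJS.2 S (h0 S hS)).2 hS
    rw [h] at h1
    exact (hJC S).1 h1
  · intro h
    have h1 : ∀ L ∈ NE, L ∈ coNE := by
      intro L hL
      have h2 := h _ ((hJS.1 L).1 hL)
      have h3 := (hJC _).2 h2
      rw [hlang L] at h3
      exact h3
    ext L
    refine ⟨h1 L, fun hL => ?_⟩
    have h2 : Lᶜ ∈ NE := hL
    have h3 : Lᶜᶜ ∈ NE := h1 _ h2
    rw [compl_compl] at h3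
    exact h3

end Pool.Agent.H22.JS
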