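import Pool.Agent.H8.JS.Targets

/-! js8_modules, row P2: the power. -/

set_option autoImplicit false

namespace Pool.Agent.H22.JS

open Pool.Agent.H8.PL Pool.Agent.H8.JS

theorem pf_p2 (hM1 : J_M1) : J_P2 := by
  intro r T U Hh Vv x i c w hc
  have key : ∀ (k : ℕ) (j : Fin (r + 1)), j.val = k →
      Ev (S5 (r := r) U Hh Vv x) A5 ⟨.mul j, i, c, 0, c ^ (r - k), 0, 0, 0, w⟩
        ⟨.cp1, i, c, 0, c ^ r, 0, 0, 0, w⟩ (8 * k * c ^ r + 1) := by
    intro k
    induction k with
    | zero =>
      intro j hj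
      have hj0 : j = 0 := Fin.ext (by simpa using hj)
      subst hj0
      refine (Ev.step ?_ ?_).mono (by omega)
      · intro d
        have e : S5 (r := r) U Hh Vv x ⟨.mul 0, i, c, 0, c ^ (r - 0), 0, 0, 0, w⟩ d ↔
            d = { (⟨.mul 0, i, c, 0, c ^ (r - 0), 0, 0, 0, w⟩ : K5 r T) with q := .cp1 } := by
          unfold S5
          simp
        rw [e]
        simp
      · unfold A5
        simp
    | succ k ih =>
      intro j hj
      have hj0 : j ≠ 0 := by
        intro h
        rw [h] at hj
        simp at hj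
      have hkr : k + 1 ≤ r := by
        have := j.isLt
        omega
      have h1 := hM1 r T U Hh Vv x i c (c ^ (r - (k + 1))) j w hj0
      have e1 : c * c ^ (r - (k + 1)) = c ^ (r - k) := by
        rw [← pow_succ']
        congr 1
        omega
      rw [e1] at h1
      have hv : (j - 1).val = k := by
        rw [Fin.val_sub_one_of_ne_zero hj0]
        omega
      have h2 := h1.trans (ih (j - 1) hv)
      refine h2.mono ?_
      have h3 : c ^ (r - k) ≤ c ^ r := Nat.pow_le_pow_right hc (by omega)
      have h4 : c ^ (r - (k + 1)) ≤ c ^ r := Nat.pow_le_pow_right hc (by omega)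
      have h5 : 1 ≤ c ^ r := Nat.one_le_pow _ _ hc
      calc 3 * c ^ (r - k) + 3 * c ^ (r - (k + 1)) + 2 + (8 * k * c ^ r + 1) ≤
          3 * c ^ r + 3 * c ^ r + 2 * c ^ r + (8 * k * c ^ r + 1) := by omega
        _ = 8 * (k + 1) * c ^ r + 1 := by ring
  have h := key r (Fin.last r) rfl
  rw [Nat.sub_self, pow_zero] at h
  exact h

end Pool.Agent.H22.JS
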