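import Pool.Agent.H8.JS.Targets

/-! js8_modules, row TB: the running time bound. -/

set_option autoImplicit false

namespace Pool.Agent.H22.JS

open Pool.Agent.H8.JS

theorem pf_tb (hNU : J_NU) : J_TB := by
  intro r x hx
  have hn : 1 ≤ x.length := List.length_pos_iff.2 hx
  generalize hnn : x.length = n at hn
  have h1 : num x ≤ 2 ^ (n + 1) := by
    rw [← hnn]
    exact ((hNU.2.2.1 x).2).le
  have h2 : num x ^ (2 * r) ≤ 2 ^ (4 * r * n) := by
    calc num x ^ (2 * r) ≤ (2 ^ (n + 1)) ^ (2 * r) := Nat.pow_le_pow_left h1 _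
      _ = 2 ^ ((n + 1) * (2 * r)) := by rw [← pow_mul]
      _ ≤ 2 ^ (4 * r * n) := by
        refine Nat.pow_le_pow_right (by norm_num) ?_
        nlinarith [Nat.zero_le r, Nat.mul_le_mul_left r hn]
  have h3 : 8 * r + 23 ≤ 2 ^ (8 * r + 23) := Nat.lt_two_pow_self.le
  have h4 : 1 ≤ 2 ^ (4 * r * n) := Nat.one_le_two_pow
  calc (8 * r + 22) * num x ^ (2 * r) + 1 ≤ (8 * r + 22) * 2 ^ (4 * r * n) + 2 ^ (4 * r * n) :=
        add_le_add (Nat.mul_le_mul_left _ h2) h4
    _ = (8 * r + 23) * 2 ^ (4 * r * n) := by ring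
    _ ≤ 2 ^ (8 * r + 23) * 2 ^ (4 * r * n) := Nat.mul_le_mul_right _ h3
    _ = 2 ^ (8 * r + 23 + 4 * r * n) := by rw [← pow_add]
    _ ≤ 2 ^ ((12 * r + 23) * n) := by
        refine Nat.pow_le_pow_right (by norm_num) ?_
        have h5 : 8 * r + 23 ≤ (8 * r + 23) * n := Nat.le_mul_of_pos_right _ hn
        calc 8 * r + 23 + 4 * r * n ≤ (8 * r + 23) * n + 4 * r * n := Nat.add_le_add_right h5 _
          _ = (12 * r + 23) * n := by ring

end Pool.Agent.H22.JS
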